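import Pool.Agent.MWGX.StmtsA

/-!
# Row EAK of squad MWGX (MP_23468a_al): `Ea c` implies `Kaba`
-/

set_option autoImplicit false

namespace Pool.Agent.MWGX.H15

open Pool.Agent.Helper14_MV Pool.Agent.Helper2_MV
open Pool.Agent.MWK (pre)
open Pool.Agent.MWF (gaml)
open Pool.Agent.MWGN (nn)
open Pool.Agent.MWGQ (pw Gn E0 A0 P0)
open Pool.Agent.MWGR (X It Kaba F1 Dm Ec Es Ea Al0 Rh FE)

theorem flat_nil (f : ℕ → List ℕ) (h : f 0 = []) (m : ℕ) : (X m).flatMap f = [] := by
  induction m with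
  | zero => rfl
  | succ m ih =>
    show (List.replicate (m + 1) 0).flatMap f = []
    rw [List.replicate_succ, List.flatMap_cons, h]
    exact ih

/-- row EAK -/
theorem eak : EakStmt := by
  intro n β c h
  have h0 : RR β (X n ++ 1 :: (X (n + c) ++ 2 :: (X n ++ [3, 1, 4, 2, 5, 1])))
    (X (n + c) ++ 2 :: (X (n + (n - 1) * c) ++ 1 :: (X (n + c) ++ [3, 1, 4, 2, 5, 1]))) := h
  have h1 := h0.sub (fun i => if i = 0 then [] else [i - 1])
  have hx : ∀ m, (X m).flatMap (fun i => if i = 0 then [] else [i - 1]) = [] :=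
    fun m => flat_nil _ (by simp) m
  simp only [List.flatMap_append, List.flatMap_cons, List.flatMap_nil, hx] at h1
  exact h1

end Pool.Agent.MWGX.H15
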