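import Pool.Agent.MWGX.StmtsB

/-!
# Row WCG of squad MWGX (MP_23468a_al): the exchange keeps the conditions
-/

set_option autoImplicit false

namespace Pool.Agent.MWGX.H15

open Pool.Agent.Helper14_MV Pool.Agent.Helper2_MV
open Pool.Agent.MWK (pre)
open Pool.Agent.MWF (gaml)
open Pool.Agent.MWGN (nn Nm WC WT Tau Ns nl sg)
open Pool.Agent.MWGQ (pw Gn E0 A0 P0 bd kr krl Rs)
open Pool.Agent.MWGR (X It Kaba F1 Dm Ec Es Ea Al0 Rh FE)

/-- what is known about a step, in one direction -/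
structure PF (n : ℕ) (v v' : List ℕ) : Prop where
  ox : OX v v'
  cnt : ∀ d, v.count d ≡ v'.count d [MOD n]
  gl : ∀ d q s, v.count s = 1 → q ≠ s → d ≠ s → nn v q s = 1 → nn v d s = v.count d →
    (nn v d q = 0 → nn v' d q = 0) ∧ (nn v d q = 1 → nn v' d q = 1) ∧
      (nn v d q = v.count d → nn v' d q = v'.count d)
  ex : ∀ d q s, v.count s = 1 → q ≠ s → d ≠ s → nn v q s = 1 → nn v d s = v.count d →
    nn v d q ≡ nn v' d q [MOD n]

theorem nn_self (v : List ℕ) (s : ℕ) : nn v s s = 0 := by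
  unfold nn
  rw [List.count_eq_zero]
  exact MWK.not_mem_pre v s

theorem PF.z {n : ℕ} {v v' : List ℕ} (h : PF n v v') {d s : ℕ} (hs : v.count s = 1)
    (hd : nn v d s = 0) : nn v' d s = 0 := by
  by_cases e : d = s
  · rw [e]
    exact nn_self v' s
  · exact (h.ox.n0 s hs d e).1 hd

theorem ne_of_one {v : List ℕ} {d s : ℕ} (hd : nn v d s = 1) : d ≠ s := by
  intro e
  rw [e, nn_self] at hd
  omega

theorem ne_of_full {v : List ℕ} {d s : ℕ} (hs : v.count s = 1) (hd : nn v d s = v.count d) :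
    d ≠ s := by
  intro e
  rw [e, nn_self] at hd
  omega

theorem PF.o {n : ℕ} {v v' : List ℕ} (h : PF n v v') {d s : ℕ} (hs : v.count s = 1)
    (hd : nn v d s = 1) : nn v' d s = 1 :=
  (h.ox.n1 s hs d (ne_of_one hd)).1 hd

theorem PF.f {n : ℕ} {v v' : List ℕ} (h : PF n v v') {d s : ℕ} (hs : v.count s = 1)
    (hd : nn v d s = v.count d) : nn v' d s = v'.count d :=
  (h.ox.nc s hs d (ne_of_full hs hd)).1 hd

theorem PF.g {n : ℕ} {v v' : List ℕ} (h : PF n v v') {d q s : ℕ} (hs : v.count s = 1)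
    (hq : nn v q s = 1) (hd : nn v d s = v.count d) :
    (nn v d q = 0 → nn v' d q = 0) ∧ (nn v d q = 1 → nn v' d q = 1) ∧
      (nn v d q = v.count d → nn v' d q = v'.count d) :=
  h.gl d q s hs (ne_of_one hq) (ne_of_full hs hd) hq hd

theorem PF.wc {n : ℕ} {v v' : List ℕ} (h : PF n v v') {ν : Nm} {M nc : ℕ} (hnc : nc ≤ M + 1)
    (k : WC ν M nc v) : WC ν M nc v' where
  sa := (h.ox.c1 _).1 k.sa
  sb := (h.ox.c1 _).1 k.sb
  ob := h.z k.sa k.ob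
  x2 := (h.ox.c2 _).1 k.x2
  y2 := (h.ox.c2 _).1 k.y2
  xa := h.o k.sa k.xa
  ya := h.o k.sa k.ya
  xb := h.f k.sb k.xb
  yb := h.f k.sb k.yb
  l2 := fun i hi => (h.ox.c2 _).1 (k.l2 i hi)
  l0 := fun i hi => h.z k.sa (k.l0 i hi)
  lb := fun i hi => h.o k.sb (k.lb i hi)
  c2 := fun i hi => (h.ox.c2 _).1 (k.c2 i hi)
  c0 := fun i hi => h.z k.sa (k.c0 i hi)
  cb := fun i hi => h.f k.sb (k.cb i hi)
  xl := fun i hi => (h.g k.sb (k.lb i hi) k.xb).2.2 (k.xl i hi)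
  yl := fun i hi => (h.g k.sb (k.lb i hi) k.yb).2.1 (k.yl i hi)
  cl0 := fun i hi j hj => (h.g k.sb (k.lb j (by omega)) (k.cb i hi)).1 (k.cl0 i hi j hj)
  cl1 := fun i hi j hj hj' => (h.g k.sb (k.lb j hj') (k.cb i hi)).2.2 (k.cl1 i hi j hj hj')

theorem PF.wt {n : ℕ} {v v' : List ℕ} (h : PF n v v') {ν : Nm} {τ : List ℕ} {m : ℕ}
    (hb : v.count ν.b = 1) (k : WT ν τ m v) : WT ν τ m v' where
  ss := fun i hi => (h.ox.c1 _).1 (k.ss i hi)
  oS := fun i hi => h.z hb (k.oS i hi)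
  os := fun i j hi hj hij => h.z (k.ss i hi) (k.os i j hi hj hij)
  lt := fun i hi => h.o (k.ss i hi) (k.lt i hi)
  lT := fun i j hi hj hij => h.f (k.ss j hj) (k.lT i j hi hj hij)

theorem PF.all {n : ℕ} {v v' : List ℕ} (h : PF n v v') {δ : ℕ} (hδ : δ ∣ n) (ν : Nm) (e : ℕ)
    (τ : List ℕ) (m M nc : ℕ) (hnc : nc ≤ M + 1) (k : WC ν M nc v) : WC ν M nc v' ∧
        (WT ν τ m v → WT ν τ m v') ∧ (GE ν e v → GE ν e v') ∧
          (GE ν e v → LG ν e δ v → LG ν e δ v') ∧ (Rs n ν M nc v → Rs n ν M nc v') := by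
  refine ⟨h.wc hnc k, fun hw => h.wt k.sb hw, fun hg => ⟨(h.ox.c2 _).1 hg.e2, h.f k.sa hg.ea⟩,
    fun hg hl => ?_, fun hr => ⟨(h.cnt _).symm.trans hr.x, (h.cnt _).symm.trans hr.y,
      fun i hi => (h.cnt _).symm.trans (hr.l i hi), fun i hi => (h.cnt _).symm.trans (hr.c i hi)⟩⟩
  have h1 := h.ex e ν.y ν.a k.sa (ne_of_one k.ya) (ne_of_full k.sa hg.ea) k.ya hg.ea
  have h2 := h.ex e ν.x ν.a k.sa (ne_of_one k.xa) (ne_of_full k.sa hg.ea) k.xa hg.ea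
  have h3 : nn v' e ν.y ≡ nn v e ν.y [MOD δ] := (h1.of_dvd hδ).symm
  have h4 : nn v e ν.x + 1 ≡ nn v' e ν.x + 1 [MOD δ] := Nat.ModEq.add_right 1 (h2.of_dvd hδ)
  exact h3.trans (Nat.ModEq.trans hl h4)

/-- row WCG -/
theorem wcg (hS : ExsStmt) (hL : ExlStmt) (hG : GlgStmt) : WcgStmt := by
  intro n c δ p Z A B F G H w w' hn hδ hE hm ν e τ m M nc hnc v v' hv hW
  obtain ⟨ox, _, hc⟩ := hS n c p Z A B F G H w w' (by omega) hE
  have hl := hL n c p Z A B F G H w w' (by omega) hE (Or.inl hm)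
  have hg := hG n c p Z A B F G H w w' hn hE hm
  have P1 : PF n w w' := ⟨ox, hc, fun d q s hs h1 h2 h3 h4 =>
    ⟨(hg d q s hs h1 h2 h3 h4).1.1, (hg d q s hs h1 h2 h3 h4).2.1.1,
      (hg d q s hs h1 h2 h3 h4).2.2.1⟩, hl⟩
  have tr : ∀ d q s, w'.count s = 1 → q ≠ s → d ≠ s → nn w' q s = 1 → nn w' d s = w'.count d →
      w.count s = 1 ∧ nn w q s = 1 ∧ nn w d s = w.count d := by
    intro d q s hs h1 h2 h3 h4
    have h5 := (ox.c1 s).2 hs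
    exact ⟨h5, (ox.n1 s h5 q h1).2 h3, (ox.nc s h5 d h2).2 h4⟩
  have P2 : PF n w' w := by
    refine ⟨ox.symm, fun d => (hc d).symm, ?_, ?_⟩
    · intro d q s hs h1 h2 h3 h4
      obtain ⟨a1, a2, a3⟩ := tr d q s hs h1 h2 h3 h4
      have h5 := hg d q s a1 h1 h2 a2 a3
      exact ⟨h5.1.2, h5.2.1.2, h5.2.2.2⟩
    · intro d q s hs h1 h2 h3 h4
      obtain ⟨a1, a2, a3⟩ := tr d q s hs h1 h2 h3 h4
      exact (hl d q s a1 h1 h2 a2 a3).symm
  rcases hv with ⟨rfl, rfl⟩ | ⟨rfl, rfl⟩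
  · exact P1.all hδ ν e τ m M nc hnc hW
  · exact P2.all hδ ν e τ m M nc hnc hW

end Pool.Agent.MWGX.H15
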